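import Pool.Agent.Helper52.ES.Spec2
import Pool.Agent.Helper53.CL.Cnf

set_option autoImplicit false

/-! # Module EQ1: data for a selection problem -/

namespace Pool.Agent.Helper19.ES

open Pool.Agent.Helper58 Function
open Pool.Agent.Helper52.Grid (Sub CNF subs clSubs sg ptf_getD ptf_sum)
open Pool.Agent.Helper52.ETSP (nrm Instance)
open Pool.Agent.Helper52.ES

/-! ### numbers -/

/-- larger coordinate, scaled -/
def fA (N a b : ℕ) : ℕ := N * (a + (b - a))
/-- smaller coordinate, scaled -/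
def fC (N a b : ℕ) : ℕ := N * (a - (a - b))
/-- even approximation of the length -/
def fR (N a b : ℕ) : ℕ := 2 * (Nat.sqrt (fA N a b * fA N a b + fC N a b * fC N a b) / 2)

/-- scale -/
def gN (n : ℕ) : ℕ := 2 ^ (2 * n + 11)

/-- entry of the table -/
def ent (n N i a b : ℕ) : ℕ × (ℕ × ℕ) :=
  if i < n then (if a + b ≤ 0 then (N, 0, N) else (fA N a b, fC N a b, fR N a b))
  else if i < 2 * n + 1 then (N, 0, N - 2) else (N, 0, N)

theorem gN_even (n : ℕ) : 2 ∣ gN n := ⟨2 ^ (2 * n + 10), by unfold gN; rw [← pow_succ']⟩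

theorem gN_big (n : ℕ) : 100 * (2 * n + 2 + 2) ≤ gN n := by
  unfold gN
  have h1 : 2 * n < 2 ^ (2 * n) := Nat.lt_two_pow_self
  have h2 : 2 ^ (2 * n + 11) = 2048 * 2 ^ (2 * n) := by rw [pow_add]; ring
  omega

theorem fR_even (N a b : ℕ) : 2 ∣ fR N a b := ⟨_, rfl⟩

theorem fC_le_fA (N a b : ℕ) : fC N a b ≤ fA N a b := by
  unfold fC fA
  exact Nat.mul_le_mul_left _ (by omega)

theorem sq_eq (N a b : ℕ) : fA N a b ^ 2 + fC N a b ^ 2 = N ^ 2 * (a ^ 2 + b ^ 2) := by
  unfold fA fC
  rcases le_total a b with h | h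
  · rw [show a + (b - a) = b by omega, show a - (a - b) = a by omega]; ring
  · rw [show a + (b - a) = a by omega, show a - (a - b) = b by omega]; ring

theorem fR_low (N a b : ℕ) : fR N a b ^ 2 ≤ fA N a b ^ 2 + fC N a b ^ 2 := by
  unfold fR
  set T := fA N a b * fA N a b + fC N a b * fC N a b with hT
  have h1 : Nat.sqrt T * Nat.sqrt T ≤ T := Nat.sqrt_le T
  have h2 : 2 * (Nat.sqrt T / 2) ≤ Nat.sqrt T := by omega
  have h3 : (2 * (Nat.sqrt T / 2)) ^ 2 ≤ Nat.sqrt T ^ 2 := Nat.pow_le_pow_left h2 2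
  have h4 : fA N a b ^ 2 + fC N a b ^ 2 = T := by rw [hT]; ring
  rw [h4]
  calc _ ≤ Nat.sqrt T ^ 2 := h3
    _ = Nat.sqrt T * Nat.sqrt T := by ring
    _ ≤ T := h1

theorem fR_high (N a b : ℕ) : fA N a b ^ 2 + fC N a b ^ 2 < (fR N a b + 2) ^ 2 := by
  unfold fR
  set T := fA N a b * fA N a b + fC N a b * fC N a b with hT
  have h1 : T < (Nat.sqrt T + 1) * (Nat.sqrt T + 1) := Nat.lt_succ_sqrt T
  have h2 : Nat.sqrt T + 1 ≤ 2 * (Nat.sqrt T / 2) + 2 := by omega
  have h4 : fA N a b ^ 2 + fC N a b ^ 2 = T := by rw [hT]; ring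
  rw [h4]
  calc T < (Nat.sqrt T + 1) * (Nat.sqrt T + 1) := h1
    _ ≤ (2 * (Nat.sqrt T / 2) + 2) * (2 * (Nat.sqrt T / 2) + 2) := Nat.mul_le_mul h2 h2
    _ = _ := by ring

theorem fC_le_fR (N a b : ℕ) (h : 3 ≤ fA N a b) : fC N a b ≤ fR N a b := by
  unfold fR
  set T := fA N a b * fA N a b + fC N a b * fC N a b with hT
  have h0 := fC_le_fA N a b
  have h1 : (fC N a b + 1) * (fC N a b + 1) ≤ T := by
    rw [hT]; nlinarith
  have h2 : fC N a b + 1 ≤ Nat.sqrt T := Nat.le_sqrt.2 h1
  omega

theorem fA_big (N a b : ℕ) (h : ¬ a + b ≤ 0) : N ≤ fA N a b := by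
  unfold fA
  exact Nat.le_mul_of_pos_right _ (by omega)

/-- the conditions on the entries -/
theorem ent_ok (n i a b : ℕ) :
    (ent n (gN n) i a b).2.1 ≤ (ent n (gN n) i a b).1 ∧
    (ent n (gN n) i a b).2.1 ≤ (ent n (gN n) i a b).2.2 ∧
    2 * (((ent n (gN n) i a b).2.2 + (ent n (gN n) i a b).1 - (ent n (gN n) i a b).2.1) / 2) =
      (ent n (gN n) i a b).2.2 + (ent n (gN n) i a b).1 - (ent n (gN n) i a b).2.1 ∧
    (ent n (gN n) i a b).2.2 ^ 2 ≤ (ent n (gN n) i a b).1 ^ 2 + (ent n (gN n) i a b).2.1 ^ 2 ∧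
    (ent n (gN n) i a b).1 ^ 2 + (ent n (gN n) i a b).2.1 ^ 2 ≤
      ((ent n (gN n) i a b).2.2 + 2) ^ 2 ∧
    100 * (2 * n + 2 + 2) ≤ (ent n (gN n) i a b).1 := by
  have hbig := gN_big n
  have hev := gN_even n
  set N := gN n with hN
  unfold ent
  split_ifs with h1 h2 h3
  · refine ⟨by simp, by simp, ?_, by simp, ?_, hbig⟩
    · simp only; omega
    · simp only
      nlinarith
  · simp only
    have h4 := fA_big N a b h2
    refine ⟨fC_le_fA N a b, fC_le_fR N a b (by omega), ?_, fR_low N a b,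
      (fR_high N a b).le, by omega⟩
    have e1 : 2 ∣ fA N a b := by unfold fA; exact dvd_mul_of_dvd_left hev _
    have e2 : 2 ∣ fC N a b := by unfold fC; exact dvd_mul_of_dvd_left hev _
    have e3 := fR_even N a b
    have e4 := fC_le_fA N a b
    omega
  · refine ⟨by simp, by simp, ?_, ?_, ?_, hbig⟩
    · simp only; omega
    · simp only
      have : N - 2 ≤ N := by omega
      nlinarith
    · simp only
      rw [show N - 2 + 2 = N by omega]
      simp
  · refine ⟨by simp, by simp, ?_, by simp, ?_, hbig⟩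
    · simp only; omega
    · simp only
      nlinarith

/-- the excess of a vector -/
noncomputable def omv (N a b : ℕ) : ℝ := N * nrm (a, b) - fR N a b

theorem sqrt_eq (N a b : ℕ) :
    Real.sqrt ((fA N a b : ℝ) ^ 2 + (fC N a b : ℝ) ^ 2) = N * nrm (a, b) := by
  have h1 : ((fA N a b : ℝ) ^ 2 + (fC N a b : ℝ) ^ 2) = (N : ℝ) ^ 2 * ((a : ℝ) ^ 2 + (b : ℝ) ^ 2) := by
    exact_mod_cast sq_eq N a b
  rw [h1, Real.sqrt_mul (by positivity), Real.sqrt_sq (by positivity)]
  rfl

theorem omv_nonneg (N a b : ℕ) : 0 ≤ omv N a b := by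
  unfold omv
  rw [← sqrt_eq, sub_nonneg]
  apply Real.le_sqrt_of_sq_le
  exact_mod_cast fR_low N a b

theorem omv_lt (N a b : ℕ) : omv N a b < 2 := by
  unfold omv
  rw [← sqrt_eq, sub_lt_iff_lt_add]
  rw [Real.sqrt_lt' (by positivity)]
  have := fR_high N a b
  have h2 : ((fA N a b ^ 2 + fC N a b ^ 2 : ℕ) : ℝ) < (((fR N a b + 2) ^ 2 : ℕ) : ℝ) := by
    exact_mod_cast this
  push_cast at h2
  rw [add_comm (2 : ℝ)]
  exact h2

theorem ent_om (n i a b : ℕ) :
    Real.sqrt (((ent n (gN n) i a b).1 : ℝ) ^ 2 + ((ent n (gN n) i a b).2.1 : ℝ) ^ 2) -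
      ((ent n (gN n) i a b).2.2 : ℝ) =
    if i < n then omv (gN n) a b else if i < 2 * n + 1 then 2 else 0 := by
  have hbig := gN_big n
  set N := gN n with hN
  unfold ent
  have hsq : Real.sqrt ((N : ℝ) ^ 2 + ((0 : ℕ) : ℝ) ^ 2) = N := by
    rw [Nat.cast_zero, zero_pow two_ne_zero, add_zero, Real.sqrt_sq (by positivity)]
  split_ifs with h1 h2 h3
  · simp only
    rw [hsq, sub_self]
    have ha : a = 0 := by omega
    have hb : b = 0 := by omega
    subst ha hb
    unfold omv fR fA fC nrm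
    simp
  · simp only
    unfold omv
    rw [sqrt_eq]
  · simp only
    rw [hsq, Nat.cast_sub (by omega)]
    push_cast
    ring
  · simp only
    rw [hsq, sub_self]

/-! ### sums over selected vectors -/

theorem sel_eq (l : List (ℕ × ℕ)) (w : List Bool) :
    sel l w = ∑ i ∈ Finset.range l.length,
      (if w.getD i false = true then nrm (l.getD i (0, 0)) else 0) := by
  unfold sel
  induction l generalizing w with
  | nil => simp
  | cons v l ih =>
    cases w with
    | nil => simp
    | cons b w =>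
      rw [List.zip_cons_cons, List.map_cons, List.sum_cons, ih, List.length_cons,
        Finset.sum_range_succ']
      simp only [List.getD_cons_zero, List.getD_cons_succ]
      rw [add_comm]

/-! ### polynomial time -/

section pt

variable {γ : Type} [Enc γ]

theorem ptf_subs {φ : γ → CNF} (h : PTf φ) : PTf (fun x => subs (φ x)) := by
  have h1 : PTf (fun c : List (ℕ × Bool) => clSubs c) := by
    have h2 : PTf (fun c : List (ℕ × Bool) => c.flatMap
        (fun l => [some (l.1, l.2), some (l.1, !l.2)])) := by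
      refine PTf.flatMap PTf.id ?_
      have h3 : PTf (fun p : List (ℕ × Bool) × (ℕ × Bool) => some (p.2.1, p.2.2)) := by fun_prop
      have h4 : PTf (fun p : List (ℕ × Bool) × (ℕ × Bool) => some (p.2.1, !p.2.2)) := by fun_prop
      exact PTf.cons h3 (PTf.cons h4 (PTf.const []))
    exact PTf.cons (PTf.const none) h2
  unfold subs
  exact PTf.flatMap h (PTf.comp h1 (PTf.snd PTf.id))

theorem pb_comp {δ : Type} [Enc δ] {f : δ → ℕ} {g : γ → δ} (hf : PBin f) (hg : PTf g) :
    PBin (fun x => f (g x)) := PTf.comp (g := fun y => (⟨f y⟩ : Wr ℕ)) hf hg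

theorem pb_congr {f g : γ → ℕ} (hf : PBin f) (h : ∀ x, g x = f x) : PBin g := by
  rw [show g = f from funext h]
  exact hf

theorem pb_fA (B : BNS) {N a b : γ → ℕ} (hN : PBin N) (ha : PBin a) (hb : PBin b) :
    PBin (fun x => fA (N x) (a x) (b x)) := by
  unfold fA
  exact B.mul _ _ _ hN (B.add _ _ _ ha (B.sub _ _ _ hb ha))

theorem pb_fC (B : BNS) {N a b : γ → ℕ} (hN : PBin N) (ha : PBin a) (hb : PBin b) :
    PBin (fun x => fC (N x) (a x) (b x)) := by
  unfold fC
  exact B.mul _ _ _ hN (B.sub _ _ _ ha (B.sub _ _ _ ha hb))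

theorem pb_fR (B : BNS) {N a b : γ → ℕ} (hN : PBin N) (ha : PBin a) (hb : PBin b) :
    PBin (fun x => fR (N x) (a x) (b x)) := by
  unfold fR
  have hA := pb_fA B hN ha hb
  have hC := pb_fC B hN ha hb
  exact B.mul _ _ _ (B.un _ _ (PTf.const 2)) (B.half _ _ (B.sqrt _ _
    (B.add _ _ _ (B.mul _ _ _ hA hA) (B.mul _ _ _ hC hC))))

/-- wrapped triple -/
def wr3 (r : ℕ × (ℕ × ℕ)) : Wr ℕ × (Wr ℕ × Wr ℕ) := (⟨r.1⟩, ⟨r.2.1⟩, ⟨r.2.2⟩)

theorem ptf_wr3 {A C R : γ → ℕ} (hA : PBin A) (hC : PBin C) (hR : PBin R) :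
    PTf (fun x => wr3 (A x, C x, R x)) := PTf.pair hA (PTf.pair hC hR)

theorem ptf_ent (B : BNS) {n i N a b : γ → ℕ} (hn : PTf n) (hi : PTf i) (hN : PBin N)
    (ha : PBin a) (hb : PBin b) : PTf (fun x => wr3 (ent (n x) (N x) (i x) (a x) (b x))) := by
  have h0 : PTf (fun x => decide (a x + b x ≤ 0)) :=
    B.le _ _ _ (B.add _ _ _ ha hb) (B.un _ _ (PTf.const 0))
  have hz : PBin (fun _ : γ => 0) := B.un _ _ (PTf.const 0)
  have h1 : PTf (fun x => wr3 (N x, 0, N x)) := ptf_wr3 hN hz hN
  have h2 : PTf (fun x => wr3 (N x, 0, N x - 2)) :=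
    ptf_wr3 hN hz (B.sub _ _ _ hN (B.un _ _ (PTf.const 2)))
  have h3 : PTf (fun x => wr3 (fA (N x) (a x) (b x), fC (N x) (a x) (b x), fR (N x) (a x) (b x))) :=
    ptf_wr3 (pb_fA B hN ha hb) (pb_fC B hN ha hb) (pb_fR B hN ha hb)
  have h4 : PTf (fun x => decide (i x < n x)) := by fun_prop
  have h5 : PTf (fun x => decide (i x < 2 * n x + 1)) := by
    have : PTf (fun x => decide (i x < n x + n x + 1)) := by fun_prop
    exact this.congr fun x => by rw [two_mul]
  have h6 : PTf (fun x => if i x < n x then (if a x + b x ≤ 0 then wr3 (N x, 0, N x) else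
      wr3 (fA (N x) (a x) (b x), fC (N x) (a x) (b x), fR (N x) (a x) (b x))) else
      if i x < 2 * n x + 1 then wr3 (N x, 0, N x - 2) else wr3 (N x, 0, N x)) :=
    PTf.ite h4 (PTf.ite h0 h1 h3) (PTf.ite h5 h2 h1)
  refine h6.congr fun x => ?_
  unfold ent
  split_ifs <;> rfl

end pt

/-! ### the data -/

section data

variable {γ : Type} [Enc γ] (vec : γ → List (ℕ × ℕ)) (bnd : γ → ℕ) (ver : γ × List Bool → Bool)

/-- coordinates of the vectors -/
def va (x : γ) (i : ℕ) : ℕ := ((vec x).getD i (0, 0)).1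
/-- coordinates of the vectors -/
def vb (x : γ) (i : ℕ) : ℕ := ((vec x).getD i (0, 0)).2
/-- number of the vectors -/
def nn (x : γ) : ℕ := (vec x).length
/-- scale -/
def nN (x : γ) : ℕ := gN (nn vec x)
/-- entries of the table -/
def rowf (x : γ) (i : ℕ) : ℕ × (ℕ × ℕ) := ent (nn vec x) (nN vec x) i (va vec x i) (vb vec x i)
/-- first part of the certificate -/
def wp (x : γ) (w : List Bool) : List Bool := (List.range (nn vec x)).map fun i => w.getD i false
/-- sum of the approximations -/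
def sS (x : γ) (w : List Bool) : ℕ := ((List.range (nn vec x)).map fun i =>
  if w.getD i false = true then fR (nN vec x) (va vec x i) (vb vec x i) else 0).sum
/-- number of slack rings -/
def zz (x : γ) (w : List Bool) : ℕ := ((List.range (nn vec x + 1)).map fun j =>
  if w.getD (nn vec x + j) false = true then 1 else 0).sum
/-- the extended verifier -/
def ver' (q : γ × List Bool) : Bool :=
  ver (q.1, wp vec q.1 q.2) && (decide (sS vec q.1 q.2 ≤ nN vec q.1 * bnd q.1) &&
    decide (2 * nn vec q.1 + 2 ≤ 2 * zz vec q.1 q.2 + (nN vec q.1 * bnd q.1 - sS vec q.1 q.2)))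

variable {vec bnd ver}

/-- wrapped vectors -/
def LL (vec : γ → List (ℕ × ℕ)) (x : γ) : List (Wr ℕ × Wr ℕ) :=
  (vec x).map fun a => ((⟨a.1⟩ : Wr ℕ), (⟨a.2⟩ : Wr ℕ))

theorem ptf_L (h : PTf (fun x => (⟨vec x⟩ : Wr (List (ℕ × ℕ))))) :
    PTf (fun x => LL vec x) := by
  have h1 := (wr_list vec).1 h
  have h2 : PTf (fun q : γ × Wr (ℕ × ℕ) => ((⟨q.2.val.1⟩ : Wr ℕ), (⟨q.2.val.2⟩ : Wr ℕ))) :=
    (wr_pair (fun q : γ × Wr (ℕ × ℕ) => q.2.val.1) (fun q => q.2.val.2)).1 (PTf.snd PTf.id)
  have h3 := PTf.map (f := fun (_ : γ) (w : Wr (ℕ × ℕ)) =>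
    ((⟨w.val.1⟩ : Wr ℕ), (⟨w.val.2⟩ : Wr ℕ))) h1 h2
  refine h3.congr fun x => ?_
  rw [List.map_map]
  rfl

omit [Enc γ] in
theorem getD_L (x : γ) (i : ℕ) :
    (LL vec x).getD i (⟨0⟩, ⟨0⟩) = (⟨va vec x i⟩, ⟨vb vec x i⟩) :=
  List.getD_map (vec x) (0, 0) (fun a : ℕ × ℕ => ((⟨a.1⟩ : Wr ℕ), (⟨a.2⟩ : Wr ℕ)))

theorem ptf_nn (h : PTf (fun x => (⟨vec x⟩ : Wr (List (ℕ × ℕ))))) : PTf (nn vec) := by
  refine (PTf.length (ptf_L h)).congr fun x => ?_
  unfold LL
  rw [List.length_map]
  rfl

theorem pb_va (h : PTf (fun x => (⟨vec x⟩ : Wr (List (ℕ × ℕ))))) :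
    PBin (fun q : γ × ℕ => va vec q.1 q.2) := by
  have h0 : PTf (fun q : γ × ℕ => LL vec q.1) :=
    PTf.comp (g := fun x => LL vec x) (ptf_L h) (PTf.fst PTf.id)
  have h1 : PTf (fun q : γ × ℕ => ((LL vec q.1).getD q.2 (⟨0⟩, ⟨0⟩)).1) :=
    PTf.fst (ptf_getD h0 (PTf.snd PTf.id) (PTf.const _))
  refine h1.congr fun q => ?_
  rw [getD_L]

theorem pb_vb (h : PTf (fun x => (⟨vec x⟩ : Wr (List (ℕ × ℕ))))) :
    PBin (fun q : γ × ℕ => vb vec q.1 q.2) := by
  have h0 : PTf (fun q : γ × ℕ => LL vec q.1) :=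
    PTf.comp (g := fun x => LL vec x) (ptf_L h) (PTf.fst PTf.id)
  have h1 : PTf (fun q : γ × ℕ => ((LL vec q.1).getD q.2 (⟨0⟩, ⟨0⟩)).2) :=
    PTf.snd (ptf_getD h0 (PTf.snd PTf.id) (PTf.const _))
  refine h1.congr fun q => ?_
  rw [getD_L]

theorem pb_nN (B : BNS) (h : PTf (fun x => (⟨vec x⟩ : Wr (List (ℕ × ℕ))))) :
    PBin (fun x => nN vec x) := by
  have hn := ptf_nn h
  have h1 : PTf (fun x => nn vec x + nn vec x + 11) := by fun_prop
  refine pb_congr (B.two _ _ h1) fun x => ?_
  unfold nN gN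
  rw [two_mul]

theorem ptf_rowf (B : BNS) (h : PTf (fun x => (⟨vec x⟩ : Wr (List (ℕ × ℕ))))) :
    PTf (fun q : γ × ℕ => wr3 (rowf vec q.1 q.2)) :=
  ptf_ent B (PTf.comp (ptf_nn h) (PTf.fst PTf.id)) (PTf.snd PTf.id)
    (pb_comp (pb_nN B h) (PTf.fst PTf.id)) (pb_va h) (pb_vb h)

theorem ptf_ver' (B : BNS) (h : PTf (fun x => (⟨vec x⟩ : Wr (List (ℕ × ℕ))))) (hb : PBin bnd)
    (hv : PTf ver) : PTf (ver' vec bnd ver) := by
  have hn := ptf_nn h
  have hn1 : PTf (fun q : γ × List Bool => nn vec q.1) := PTf.comp hn (PTf.fst PTf.id)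
  have hN1 : PBin (fun q : γ × List Bool => nN vec q.1) := pb_comp (pb_nN B h) (PTf.fst PTf.id)
  have hb1 : PBin (fun q : γ × List Bool => bnd q.1) := pb_comp hb (PTf.fst PTf.id)
  have h1 : PTf (fun q : γ × List Bool => wp vec q.1 q.2) := by
    unfold wp
    refine PTf.map (PTf.range hn1) ?_
    fun_prop
  have h2 : PBin (fun q : γ × List Bool => sS vec q.1 q.2) := by
    have h3 : PTf (fun q : γ × List Bool => (List.range (nn vec q.1)).map fun i =>
        if q.2.getD i false = true then (⟨fR (nN vec q.1) (va vec q.1 i) (vb vec q.1 i)⟩ : Wr ℕ)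
        else ⟨0⟩) := by
      refine PTf.map (PTf.range hn1) ?_
      refine PTf.ite (by fun_prop) ?_ (PTf.const _)
      refine pb_fR B (pb_comp (pb_nN B h) (PTf.fst (PTf.fst PTf.id))) ?_ ?_
      · exact pb_comp (f := fun q : γ × ℕ => va vec q.1 q.2)
          (g := fun p : (γ × List Bool) × ℕ => (p.1.1, p.2)) (pb_va h)
          (PTf.pair (PTf.fst (PTf.fst PTf.id)) (PTf.snd PTf.id))
      · exact pb_comp (f := fun q : γ × ℕ => vb vec q.1 q.2)
          (g := fun p : (γ × List Bool) × ℕ => (p.1.1, p.2)) (pb_vb h)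
          (PTf.pair (PTf.fst (PTf.fst PTf.id)) (PTf.snd PTf.id))
    refine pb_congr (B.sum _ _ h3) fun q => ?_
    unfold sS
    rw [List.map_map]
    congr 2
    funext i
    simp only [comp_apply]
    split_ifs <;> rfl
  have h4 : PTf (fun q : γ × List Bool => zz vec q.1 q.2) := by
    unfold zz
    refine ptf_sum (PTf.map (PTf.range (PTf.succ hn1)) ?_)
    refine PTf.ite ?_ (PTf.const _) (PTf.const _)
    have h5 : PTf (fun p : (γ × List Bool) × ℕ => nn vec p.1.1 + p.2) :=
      PTf.add (PTf.comp hn (PTf.fst (PTf.fst PTf.id))) (PTf.snd PTf.id)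
    fun_prop
  have h6 : PTf (fun q : γ × List Bool => ver (q.1, wp vec q.1 q.2)) :=
    PTf.comp hv (PTf.pair (PTf.fst PTf.id) h1)
  have h7 : PTf (fun q : γ × List Bool => decide (sS vec q.1 q.2 ≤ nN vec q.1 * bnd q.1)) :=
    B.le _ _ _ h2 (B.mul _ _ _ hN1 hb1)
  have h8 : PTf (fun q : γ × List Bool => decide (2 * nn vec q.1 + 2 ≤
      2 * zz vec q.1 q.2 + (nN vec q.1 * bnd q.1 - sS vec q.1 q.2))) := by
    refine B.le _ _ _ (B.un _ _ ?_) (B.add _ _ _ (B.un _ _ ?_) (B.sub _ _ _
      (B.mul _ _ _ hN1 hb1) h2))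
    · have : PTf (fun q : γ × List Bool => nn vec q.1 + nn vec q.1 + 2) := by fun_prop
      exact this.congr fun q => by rw [two_mul]
    · have : PTf (fun q : γ × List Bool => zz vec q.1 q.2 + zz vec q.1 q.2) := PTf.add h4 h4
      exact this.congr fun q => by rw [two_mul]
  exact PTf.and h6 (PTf.and h7 h8)

end data

/-! ### the equivalence -/

theorem list_sum_range (f : ℕ → ℕ) (n : ℕ) :
    ((List.range n).map f).sum = ∑ i ∈ Finset.range n, f i := rfl

theorem getD_map_range {α : Type} (f : ℕ → α) (n i : ℕ) (d : α) (h : i < n) :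
    ((List.range n).map f).getD i d = f i := by
  rw [List.getD_eq_getElem?_getD, List.getElem?_map, List.getElem?_range h]
  rfl

section core

variable (n N bd : ℕ) (a b : ℕ → ℕ)

/-- the selected approximations -/
theorem core_iff (hN : 2 ∣ N) (hN0 : 0 < N) (P : (ℕ → Bool) → Prop)
    (hP : ∀ f g : ℕ → Bool, (∀ i < n, f i = g i) → P f → P g) :
    (∃ f : ℕ → Bool, P f ∧
      (∑ i ∈ Finset.range n, if f i = true then nrm (a i, b i) else 0) ≤ (bd : ℝ)) ↔
    ∃ f : ℕ → Bool, (P f ∧
      (∑ i ∈ Finset.range n, if f i = true then fR N (a i) (b i) else 0) ≤ N * bd ∧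
      2 * n + 2 ≤ 2 * (∑ j ∈ Finset.range (n + 1), if f (n + j) = true then 1 else 0) +
        (N * bd - ∑ i ∈ Finset.range n, if f i = true then fR N (a i) (b i) else 0)) ∧
      (∑ i ∈ Finset.range n, if f i = true then omv N (a i) (b i) else 0) +
        (∑ j ∈ Finset.range (n + 1), if f (n + j) = true then (2 : ℝ) else 0) ≤
        ((2 * n + 2 : ℕ) : ℝ) := by
  have hsplit : ∀ f : ℕ → Bool,
      (N : ℝ) * (∑ i ∈ Finset.range n, if f i = true then nrm (a i, b i) else 0) =
      (∑ i ∈ Finset.range n, if f i = true then omv N (a i) (b i) else 0) +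
        ((∑ i ∈ Finset.range n, if f i = true then fR N (a i) (b i) else 0 : ℕ) : ℝ) := by
    intro f
    rw [Nat.cast_sum, Finset.mul_sum, ← Finset.sum_add_distrib]
    apply Finset.sum_congr rfl
    intro i _
    split_ifs
    · unfold omv; ring
    · simp
  have hz : ∀ f : ℕ → Bool, (∑ j ∈ Finset.range (n + 1), if f (n + j) = true then (2 : ℝ) else 0) =
      2 * ((∑ j ∈ Finset.range (n + 1), if f (n + j) = true then 1 else 0 : ℕ) : ℝ) := by
    intro f
    rw [Nat.cast_sum, Finset.mul_sum]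
    apply Finset.sum_congr rfl
    intro i _
    split_ifs <;> simp
  have hom0 : ∀ f : ℕ → Bool,
      0 ≤ ∑ i ∈ Finset.range n, if f i = true then omv N (a i) (b i) else 0 := by
    intro f
    apply Finset.sum_nonneg
    intro i _
    split_ifs
    · exact omv_nonneg _ _ _
    · exact le_rfl
  have hom2 : ∀ f : ℕ → Bool,
      (∑ i ∈ Finset.range n, if f i = true then omv N (a i) (b i) else 0) ≤ 2 * n := by
    intro f
    have : (∑ i ∈ Finset.range n, if f i = true then omv N (a i) (b i) else 0) ≤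
        ∑ _i ∈ Finset.range n, (2 : ℝ) := by
      apply Finset.sum_le_sum
      intro i _
      split_ifs
      · exact (omv_lt _ _ _).le
      · norm_num
    refine this.trans ?_
    rw [Finset.sum_const, Finset.card_range, nsmul_eq_mul]
    linarith
  have hNR : (0 : ℝ) < N := by exact_mod_cast hN0
  constructor
  · rintro ⟨f, hPf, hf⟩
    -- approximations of the selected vectors
    set S : ℕ := ∑ i ∈ Finset.range n, if f i = true then fR N (a i) (b i) else 0 with hS
    set Ω : ℝ := ∑ i ∈ Finset.range n, if f i = true then omv N (a i) (b i) else 0 with hΩ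
    have h1 : Ω + (S : ℝ) ≤ ((N * bd : ℕ) : ℝ) := by
      rw [hΩ, hS, ← hsplit f]
      push_cast
      exact mul_le_mul_of_nonneg_left hf hNR.le
    have h2 : S ≤ N * bd := by
      have : (S : ℝ) ≤ ((N * bd : ℕ) : ℝ) := by
        have := hom0 f
        linarith
      exact_mod_cast this
    obtain ⟨D, hD⟩ : ∃ D, N * bd = S + D := ⟨N * bd - S, by omega⟩
    have h3 : Ω ≤ D := by
      rw [hD] at h1
      push_cast at h1
      linarith
    have hSe : 2 ∣ S := by
      rw [hS]
      apply Finset.dvd_sum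
      intro i _
      split_ifs
      · exact fR_even _ _ _
      · exact dvd_zero _
    have hDe : 2 ∣ D := by
      have h4 : 2 ∣ N * bd := dvd_mul_of_dvd_left hN _
      rw [hD] at h4
      exact (Nat.dvd_add_right hSe).1 h4
    -- number of slack rings
    set jz : ℕ := if D ≤ 2 * (n + 1) then n + 1 - D / 2 else 0 with hjz
    have hjz1 : jz ≤ n + 1 := by rw [hjz]; split_ifs <;> omega
    let g : ℕ → Bool := fun i => if i < n then f i else decide (i - n < jz)
    have hg1 : ∀ i < n, g i = f i := by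
      intro i hi
      change (if i < n then f i else decide (i - n < jz)) = f i
      rw [if_pos hi]
    have hg2 : ∀ j, g (n + j) = decide (j < jz) := by
      intro j
      change (if n + j < n then f (n + j) else decide (n + j - n < jz)) = _
      rw [if_neg (by omega), Nat.add_sub_cancel_left]
    have hcount : (∑ j ∈ Finset.range (n + 1), if g (n + j) = true then 1 else 0) = jz := by
      have h5 : (∑ j ∈ Finset.range (n + 1), if g (n + j) = true then 1 else 0) =
          ∑ j ∈ Finset.range (n + 1), if j < jz then 1 else 0 := by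
        apply Finset.sum_congr rfl
        intro j _
        rw [hg2]
        simp
      rw [h5, ← Finset.card_filter]
      have h6 : (Finset.range (n + 1)).filter (fun j => j < jz) = Finset.range jz := by
        ext j
        simp only [Finset.mem_filter, Finset.mem_range]
        omega
      rw [h6, Finset.card_range]
    have hSg : (∑ i ∈ Finset.range n, if g i = true then fR N (a i) (b i) else 0) = S := by
      rw [hS]
      apply Finset.sum_congr rfl
      intro i hi
      rw [hg1 i (Finset.mem_range.1 hi)]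
    have hΩg : (∑ i ∈ Finset.range n, if g i = true then omv N (a i) (b i) else 0) = Ω := by
      rw [hΩ]
      apply Finset.sum_congr rfl
      intro i hi
      rw [hg1 i (Finset.mem_range.1 hi)]
    refine ⟨g, ⟨hP f g (fun i hi => (hg1 i hi).symm) hPf, ?_, ?_⟩, ?_⟩
    · rw [hSg]; exact h2
    · rw [hSg, hcount, hD, Nat.add_sub_cancel_left, hjz]
      split_ifs <;> omega
    · rw [hΩg, hz, hcount]
      by_cases hDk : D ≤ 2 * (n + 1)
      · have h7 : D + 2 * jz = 2 * n + 2 := by
          rw [hjz, if_pos hDk]; omega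
        have h8 : (D : ℝ) + 2 * (jz : ℝ) = ((2 * n + 2 : ℕ) : ℝ) := by exact_mod_cast h7
        linarith
      · have h7 : jz = 0 := by rw [hjz, if_neg hDk]
        rw [h7]
        have := hom2 f
        push_cast
        linarith
  · rintro ⟨f, ⟨hPf, h1, h2⟩, h3⟩
    refine ⟨f, hPf, ?_⟩
    set S : ℕ := ∑ i ∈ Finset.range n, if f i = true then fR N (a i) (b i) else 0 with hS
    set Ω : ℝ := ∑ i ∈ Finset.range n, if f i = true then omv N (a i) (b i) else 0 with hΩ
    obtain ⟨D, hD⟩ : ∃ D, N * bd = S + D := ⟨N * bd - S, by omega⟩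
    rw [hD, Nat.add_sub_cancel_left] at h2
    rw [hz] at h3
    set Z : ℕ := ∑ j ∈ Finset.range (n + 1), if f (n + j) = true then 1 else 0 with hZ
    have h4 : ((2 * n + 2 : ℕ) : ℝ) ≤ 2 * (Z : ℝ) + (D : ℝ) := by exact_mod_cast h2
    have h5 : Ω ≤ D := by linarith
    have h6 := hsplit f
    have h7 : (N : ℝ) * bd = S + D := by exact_mod_cast hD
    refine le_of_mul_le_mul_left ?_ hNR
    rw [h6, h7]
    linarith

end core

section main

variable {γ : Type} [Enc γ] {vec : γ → List (ℕ × ℕ)} {bnd : γ → ℕ} {ver : γ × List Bool → Bool}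

/-- bound of the rows -/
def mM (vec : γ → List (ℕ × ℕ)) (φ : γ → CNF) (x : γ) : ℕ :=
  ((φ x).map fun c => (c.map fun l => l.1).sum).sum + (nn vec x + nn vec x + 1)

/-- the table -/
def tab (vec : γ → List (ℕ × ℕ)) (φ : γ → CNF) (x : γ) : List (Wr ℕ × (Wr ℕ × Wr ℕ)) :=
  (List.range (mM vec φ x + mM vec φ x + 1)).map fun i => wr3 (rowf vec x i)

/-- the exponent -/
def ee (vec : γ → List (ℕ × ℕ)) (φ : γ → CNF) (x : γ) : ℕ :=
  ((tab vec φ x).map fun r => Nat.size r.1.val).sum + 3

/-- the data -/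
def dd (vec : γ → List (ℕ × ℕ)) (φ : γ → CNF) (x : γ) : Dat :=
  ((subs (φ x), mM vec φ x), (ee vec φ x, tab vec φ x))

theorem ptf_dd (B : BNS) (h : PTf (fun x => (⟨vec x⟩ : Wr (List (ℕ × ℕ))))) {φ : γ → CNF}
    (hφ : PTf φ) : PTf (dd vec φ) := by
  have hn := ptf_nn h
  have hM : PTf (mM vec φ) := by
    unfold mM
    refine PTf.add ?_ (by fun_prop)
    refine ptf_sum (PTf.map hφ ?_)
    refine ptf_sum (PTf.map (PTf.snd PTf.id) ?_)
    fun_prop
  have hT : PTf (tab vec φ) := by
    unfold tab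
    exact PTf.map (PTf.range (by fun_prop)) (ptf_rowf B h)
  have hE : PTf (ee vec φ) := by
    unfold ee
    have h1 : PTf (fun x => ((tab vec φ x).map fun r => Nat.size r.1.val).sum) := by
      refine ptf_sum (PTf.map hT ?_)
      refine B.size _ (fun p : γ × (Wr ℕ × (Wr ℕ × Wr ℕ)) => p.2.1.val) ?_
      exact PTf.fst (PTf.snd PTf.id)
    fun_prop
  exact PTf.pair (PTf.pair (ptf_subs hφ) hM) (PTf.pair hE hT)

theorem sg_mem {s : List Sub} {k : ℕ} {i : ℕ} {d : Bool} (h : sg s k = some (i, d)) :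
    some (i, d) ∈ s := by
  unfold sg at h
  rw [List.getD_eq_getElem?_getD] at h
  cases h2 : s[k]? with
  | none => rw [h2] at h; exact absurd h (by simp)
  | some o =>
    rw [h2] at h
    have h3 : o = some (i, d) := h
    rw [h3] at h2
    exact List.mem_of_getElem? h2

theorem mem_subs {φ : CNF} {i : ℕ} {d : Bool} (h : some (i, d) ∈ subs φ) :
    ∃ c ∈ φ, ∃ l ∈ c, l.1 = i := by
  unfold subs at h
  rw [List.mem_flatMap] at h
  obtain ⟨c, hc, h⟩ := h
  unfold clSubs at h
  rw [List.mem_cons] at h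
  rcases h with h | h
  · exact absurd h (by simp)
  rw [List.mem_flatMap] at h
  obtain ⟨l, hl, h⟩ := h
  refine ⟨c, hc, l, hl, ?_⟩
  simp only [List.mem_cons, List.not_mem_nil, or_false, Option.some.injEq, Prod.mk.injEq] at h
  rcases h with h | h <;> exact h.1.symm

theorem sg_zero (φ : CNF) : sg (subs φ) 0 = none := by
  cases φ with
  | nil => rfl
  | cons c φ => rfl

omit [Enc γ] in
theorem lit_lt (φ : γ → CNF) (x : γ) : ∀ c ∈ φ x, ∀ l ∈ c, l.1 < 2 * mM vec φ x + 1 := by
  intro c hc l hl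
  have h1 : l.1 ≤ (c.map fun l => l.1).sum :=
    List.single_le_sum (fun _ _ => Nat.zero_le _) _ (List.mem_map.2 ⟨l, hl, rfl⟩)
  have h2 : (c.map fun l => l.1).sum ≤ ((φ x).map fun c => (c.map fun l => l.1).sum).sum :=
    List.single_le_sum (fun _ _ => Nat.zero_le _) _ (List.mem_map.2 ⟨c, hc, rfl⟩)
  unfold mM
  omega

omit [Enc γ] in
theorem row_dd (φ : γ → CNF) (x : γ) (i : ℕ) (hi : i < 2 * mM vec φ x + 1) :
    row (dd vec φ x).2.2 i = wr3 (rowf vec x i) := by
  unfold row
  exact getD_map_range _ _ _ _ (by omega)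

omit [Enc γ] in
theorem dd_ok (φ : γ → CNF) (x : γ) : (par (dd vec φ x)).Ok (2 * nn vec x + 2) := by
  have hr : ∀ i < (par (dd vec φ x)).rows, row (dd vec φ x).2.2 i = wr3 (rowf vec x i) :=
    fun i hi => row_dd φ x i hi
  have hA : ∀ i < (par (dd vec φ x)).rows, (par (dd vec φ x)).A i = (rowf vec x i).1 := by
    intro i hi
    change (row (dd vec φ x).2.2 i).1.val = _
    rw [hr i hi]; rfl
  have hC : ∀ i < (par (dd vec φ x)).rows, (par (dd vec φ x)).C i = (rowf vec x i).2.1 := by
    intro i hi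
    change (row (dd vec φ x).2.2 i).2.1.val = _
    rw [hr i hi]; rfl
  have hR : ∀ i < (par (dd vec φ x)).rows, (par (dd vec φ x)).R i = (rowf vec x i).2.2 := by
    intro i hi
    change (row (dd vec φ x).2.2 i).2.2.val = _
    rw [hr i hi]; rfl
  have hok := fun i => ent_ok (nn vec x) i (va vec x i) (vb vec x i)
  refine ⟨?_, ?_, ?_, ?_, ?_, ?_, ?_, ?_, ?_⟩
  · intro k i d h
    obtain ⟨c, hc, l, hl, rfl⟩ := mem_subs (sg_mem (s := subs (φ x)) h)
    exact lit_lt φ x c hc l hl
  · intro _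
    exact sg_zero (φ x)
  · intro i hi
    rw [hC i hi, hA i hi]
    exact (hok i).1
  · intro i hi
    rw [hC i hi, hR i hi]
    exact (hok i).2.1
  · intro i hi
    unfold Par.H
    rw [hC i hi, hA i hi, hR i hi]
    exact (hok i).2.2.1
  · intro i hi
    rw [hC i hi, hA i hi, hR i hi]
    exact (hok i).2.2.2.1
  · intro i hi
    rw [hC i hi, hA i hi, hR i hi]
    exact (hok i).2.2.2.2.1
  · intro i hi
    rw [hA i hi]
    exact (hok i).2.2.2.2.2
  · intro i hi
    rw [hA i hi]
    change 8 * (rowf vec x i).1 ≤ 2 ^ (ee vec φ x)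
    have h1 : Nat.size (rowf vec x i).1 ≤ ((tab vec φ x).map fun r => Nat.size r.1.val).sum := by
      refine List.single_le_sum (fun _ _ => Nat.zero_le _) _ (List.mem_map.2
        ⟨wr3 (rowf vec x i), ?_, rfl⟩)
      refine List.mem_map.2 ⟨i, List.mem_range.2 ?_, rfl⟩
      have : i < 2 * mM vec φ x + 1 := hi
      omega
    have h2 : (rowf vec x i).1 < 2 ^ Nat.size (rowf vec x i).1 := Nat.lt_size_self _
    have h3 : 2 ^ (Nat.size (rowf vec x i).1 + 3) ≤ 2 ^ (ee vec φ x) := by
      apply Nat.pow_le_pow_right (by norm_num)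
      unfold ee
      omega
    rw [pow_add] at h3
    omega

open Classical in
omit [Enc γ] in
theorem sum_om (φ : γ → CNF) (x : γ) (f : ℕ → Bool) :
    ∑ i ∈ Finset.range (par (dd vec φ x)).rows, (if f i = true then (par (dd vec φ x)).om i else 0)
    = (∑ i ∈ Finset.range (nn vec x),
        if f i = true then omv (nN vec x) (va vec x i) (vb vec x i) else 0) +
      ∑ j ∈ Finset.range (nn vec x + 1), if f (nn vec x + j) = true then (2 : ℝ) else 0 := by
  have hom : ∀ i < (par (dd vec φ x)).rows, (par (dd vec φ x)).om i =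
      if i < nn vec x then omv (nN vec x) (va vec x i) (vb vec x i)
        else if i < 2 * nn vec x + 1 then 2 else 0 := by
    intro i hi
    unfold Par.om
    have h1 : (par (dd vec φ x)).A i = (rowf vec x i).1 := by
      change (row (dd vec φ x).2.2 i).1.val = _
      rw [row_dd φ x i hi]; rfl
    have h2 : (par (dd vec φ x)).C i = (rowf vec x i).2.1 := by
      change (row (dd vec φ x).2.2 i).2.1.val = _
      rw [row_dd φ x i hi]; rfl
    have h3 : (par (dd vec φ x)).R i = (rowf vec x i).2.2 := by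
      change (row (dd vec φ x).2.2 i).2.2.val = _
      rw [row_dd φ x i hi]; rfl
    rw [h1, h2, h3]
    exact ent_om (nn vec x) i (va vec x i) (vb vec x i)
  obtain ⟨r, hr⟩ : ∃ r, (par (dd vec φ x)).rows = nn vec x + ((nn vec x + 1) + r) := by
    refine ⟨(par (dd vec φ x)).rows - (nn vec x + (nn vec x + 1)), ?_⟩
    have : (par (dd vec φ x)).rows = 2 * mM vec φ x + 1 := rfl
    rw [this]
    unfold mM
    omega
  rw [hr] at hom ⊢
  rw [Finset.sum_range_add, Finset.sum_range_add]
  have e1 : ∑ i ∈ Finset.range (nn vec x), (if f i = true then (par (dd vec φ x)).om i else 0) =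
      ∑ i ∈ Finset.range (nn vec x),
        if f i = true then omv (nN vec x) (va vec x i) (vb vec x i) else 0 := by
    apply Finset.sum_congr rfl
    intro i hi
    rw [Finset.mem_range] at hi
    have h9 := hom i (by omega)
    rw [if_pos hi] at h9
    rw [h9]
  have e2 : ∑ j ∈ Finset.range (nn vec x + 1),
      (if f (nn vec x + j) = true then (par (dd vec φ x)).om (nn vec x + j) else 0) =
      ∑ j ∈ Finset.range (nn vec x + 1), if f (nn vec x + j) = true then (2 : ℝ) else 0 := by
    apply Finset.sum_congr rfl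
    intro j hj
    rw [Finset.mem_range] at hj
    have h9 := hom (nn vec x + j) (by omega)
    rw [if_neg (by omega), if_pos (by omega)] at h9
    rw [h9]
  have e3 : ∑ j ∈ Finset.range r,
      (if f (nn vec x + (nn vec x + 1 + j)) = true then
        (par (dd vec φ x)).om (nn vec x + (nn vec x + 1 + j)) else 0) = 0 := by
    apply Finset.sum_eq_zero
    intro j hj
    rw [Finset.mem_range] at hj
    have h9 := hom (nn vec x + (nn vec x + 1 + j)) (by omega)
    rw [if_neg (by omega), if_neg (by omega)] at h9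
    rw [h9]
    simp
  rw [e1, e2, e3, add_zero]

end main

theorem EQ1 : specEQ1 := by
  intro CW B γ _ vec bnd ver hvec hbnd hver
  have hn := ptf_nn hvec
  have hm : PTf (fun x => nn vec x + (nn vec x + 1)) := by fun_prop
  obtain ⟨φ, hφ, hcw⟩ := CW γ (ver' vec bnd ver) (fun x => nn vec x + (nn vec x + 1))
    (ptf_ver' B hvec hbnd hver) hm
  refine ⟨dd vec φ, fun x => 2 * nn vec x + 2, φ, ptf_dd B hvec hφ, ?_, ?_⟩
  · have : PTf (fun x => nn vec x + nn vec x + 2) := by fun_prop
    exact this.congr fun x => by rw [two_mul]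
  intro x
  refine ⟨dd_ok φ x, Nat.succ_pos _, rfl, lit_lt φ x, ?_⟩
  set n := nn vec x with hn'
  set N := nN vec x with hN'
  have hNe : 2 ∣ N := gN_even _
  have hN0 : 0 < N := by
    have := gN_big (nn vec x)
    have h : N = gN (nn vec x) := rfl
    omega
  -- certificates as functions
  let P : (ℕ → Bool) → Prop := fun f => ver (x, (List.range n).map f) = true
  have hP : ∀ f g : ℕ → Bool, (∀ i < n, f i = g i) → P f → P g := by
    intro f g hfg hf
    have : (List.range n).map g = (List.range n).map f := by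
      apply List.map_congr_left
      intro i hi
      exact (hfg i (List.mem_range.1 hi)).symm
    change ver (x, (List.range n).map g) = true
    rw [this]
    exact hf
  have hlist : ∀ w : List Bool, w.length = n → (List.range n).map (fun i => w.getD i false) = w := by
    intro w hw
    apply List.ext_getElem
    · rw [List.length_map, List.length_range, hw]
    · intro i h1 h2
      rw [List.getElem_map, List.getElem_range, List.getD_eq_getElem _ _ h2]
  have step1 : (∃ w : List Bool, w.length = (vec x).length ∧ ver (x, w) = true ∧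
      sel (vec x) w ≤ bnd x) ↔ (∃ f : ℕ → Bool, P f ∧
      (∑ i ∈ Finset.range n, if f i = true then nrm (va vec x i, vb vec x i) else 0) ≤
        (bnd x : ℝ)) := by
    constructor
    · rintro ⟨w, hw, h1, h2⟩
      refine ⟨fun i => w.getD i false, ?_, ?_⟩
      · change ver (x, (List.range n).map fun i => w.getD i false) = true
        rw [hlist w hw]
        exact h1
      · rw [sel_eq] at h2
        exact h2
    · rintro ⟨f, h1, h2⟩
      refine ⟨(List.range n).map f, by rw [List.length_map, List.length_range]; rfl, h1, ?_⟩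
      rw [sel_eq]
      refine le_of_eq_of_le ?_ h2
      apply Finset.sum_congr rfl
      intro i hi
      have hi' : i < n := Finset.mem_range.1 hi
      rw [getD_map_range _ _ _ _ hi']
      rfl
  rw [step1, core_iff n N (bnd x) (va vec x) (vb vec x) hNe hN0 P hP]
  -- the verifier on functions
  have hver' : ∀ (f : ℕ → Bool) (w : List Bool), (∀ i < n + (n + 1), f i = w.getD i false) →
      (ver' vec bnd ver (x, w) = true ↔ (P f ∧
      (∑ i ∈ Finset.range n, if f i = true then fR N (va vec x i) (vb vec x i) else 0) ≤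
        N * bnd x ∧
      2 * n + 2 ≤ 2 * (∑ j ∈ Finset.range (n + 1), if f (n + j) = true then 1 else 0) +
        (N * bnd x -
          ∑ i ∈ Finset.range n, if f i = true then fR N (va vec x i) (vb vec x i) else 0))) := by
    intro f w hfw
    have e1 : wp vec x w = (List.range n).map f := by
      unfold wp
      apply List.map_congr_left
      intro i hi
      have := List.mem_range.1 hi
      exact (hfw i (by omega)).symm
    have e2 : sS vec x w =
        ∑ i ∈ Finset.range n, if f i = true then fR N (va vec x i) (vb vec x i) else 0 := by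
      unfold sS
      rw [list_sum_range]
      apply Finset.sum_congr rfl
      intro i hi
      have := Finset.mem_range.1 hi
      rw [hfw i (by omega)]
    have e3 : zz vec x w = ∑ j ∈ Finset.range (n + 1), if f (n + j) = true then 1 else 0 := by
      unfold zz
      rw [list_sum_range]
      apply Finset.sum_congr rfl
      intro j hj
      have := Finset.mem_range.1 hj
      rw [hfw (n + j) (by omega)]
    unfold ver'
    simp only
    rw [e1, e2, e3, Bool.and_eq_true, Bool.and_eq_true, decide_eq_true_iff, decide_eq_true_iff]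
  constructor
  · rintro ⟨f, h1, h2⟩
    -- the certificate of `f`
    have h3 : ver' vec bnd ver (x, (List.range (n + (n + 1))).map f) = true := by
      rw [hver' f]
      · exact h1
      · intro i hi
        rw [getD_map_range _ _ _ _ hi]
    rw [hcw x _ (by rw [List.length_map, List.length_range])] at h3
    obtain ⟨a, ha, hab⟩ := h3
    have hab' : ∀ i < n + (n + 1), a i = f i := by
      intro i hi
      rw [hab i hi, getD_map_range _ _ _ _ hi]
    refine ⟨a, ha, ?_⟩
    rw [sum_om]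
    refine le_of_eq_of_le ?_ h2
    congr 1
    · apply Finset.sum_congr rfl
      intro i hi
      have : i < nn vec x := Finset.mem_range.1 hi
      rw [hab' i (by omega)]
    · apply Finset.sum_congr rfl
      intro j hj
      have : j < nn vec x + 1 := Finset.mem_range.1 hj
      rw [hab' (nn vec x + j) (by omega)]
  · rintro ⟨a, ha, h2⟩
    refine ⟨a, ?_, ?_⟩
    · rw [← hver' a ((List.range (n + (n + 1))).map a)]
      · rw [hcw x _ (by rw [List.length_map, List.length_range])]
        exact ⟨a, ha, fun i hi => by rw [getD_map_range _ _ _ _ hi]⟩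
      · intro i hi
        rw [getD_map_range _ _ _ _ hi]
    · rw [sum_om] at h2
      exact h2

end Pool.Agent.Helper19.ES
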