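import Pool.Agent.Helper52.ES.Spec

set_option autoImplicit false

/-! # Module FN: the forced neighbours -/

namespace Pool.Agent.Helper19.ES.FNm

open Pool.Agent.Helper52.ES
open Pool.Agent.Helper52.Grid

variable {p : Par}

theorem st_hub {x y : ℕ} (c : ℕ) (h : p.hub x y = true) :
    p.st x y c = coin ((y - 4) / 6) c (p.e + 2) := by
  unfold Par.st
  rw [if_pos h]

theorem st_lat {x y : ℕ} (c : ℕ) (h : p.hub x y = false) : p.st x y c = lat x y := by
  unfold Par.st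
  rw [if_neg (by rw [h]; exact Bool.false_ne_true)]

theorem st_tag (x y c : ℕ) : (p.st x y c).1 = 0 ∨ (p.st x y c).1 = 4 := by
  cases h : p.hub x y with
  | true => rw [st_hub c h]; exact Or.inr rfl
  | false => rw [st_lat c h]; exact Or.inl rfl

theorem st_eq_lat {x y c x' y' : ℕ} (h : p.st x y c = lat x' y') :
    p.hub x y = false ∧ x = x' ∧ y = y' := by
  cases h1 : p.hub x y with
  | true =>
    rw [st_hub c h1] at h
    have : (4 : ℕ) = 0 := congrArg Prod.fst h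
    exact absurd this (by decide)
  | false =>
    rw [st_lat c h1] at h
    simp only [lat, Prod.mk.injEq] at h
    exact ⟨rfl, h.2.1, h.2.2.1⟩

theorem st_eq_coin {x y c i c' k : ℕ} (h : p.st x y c = coin i c' k) :
    p.hub x y = true ∧ (y - 4) / 6 = i ∧ c = c' ∧ k = p.e + 2 := by
  cases h1 : p.hub x y with
  | false =>
    rw [st_lat c h1] at h
    have : (0 : ℕ) = 4 := congrArg Prod.fst h
    exact absurd this (by decide)
  | true =>
    rw [st_hub c h1] at h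
    simp only [coin, Prod.mk.injEq] at h
    exact ⟨rfl, h.2.1, h.2.2.1, h.2.2.2.symm⟩

/-- first vertex of a pair on an arm -/
def pre (p : Par) (i c k : ℕ) : Vx := if p.fst' i c k then ring i c else coin i c (k - 1)

theorem mem_fcell {x y : ℕ} {q : Vx × Vx} : q ∈ p.fcell x y ↔
    (p.h x y = 0 ∧ (q = (p.st x y 3, hm x y) ∨ q = (hm x y, p.st (x + 1) y 1))) ∨
    (p.v x y = 0 ∧ (q = (p.st x y 2, vm x y) ∨ q = (vm x y, p.st x (y + 1) 0))) := by
  unfold Par.fcell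
  rw [List.mem_append]
  by_cases h1 : p.h x y = 0 <;> by_cases h2 : p.v x y = 0 <;> simp [h1, h2]

theorem mem_farm {i c : ℕ} {q : Vx × Vx} : q ∈ p.farm i c ↔
    ∃ k < p.e + 3, p.cn i c k = true ∧ q = (pre p i c k, coin i c k) := by
  unfold Par.farm pre
  rw [List.mem_map]
  constructor
  · rintro ⟨k, hk, rfl⟩
    rw [List.mem_filter, List.mem_range] at hk
    exact ⟨k, hk.1, hk.2, rfl⟩
  · rintro ⟨k, h1, h2, rfl⟩
    exact ⟨k, List.mem_filter.2 ⟨List.mem_range.2 h1, h2⟩, rfl⟩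

theorem mem_FL (nf : p.NF) {q : Vx × Vx} : q ∈ p.FL ↔
    (∃ x y, p.h x y = 0 ∧ (q = (p.st x y 3, hm x y) ∨ q = (hm x y, p.st (x + 1) y 1))) ∨
    (∃ x y, p.v x y = 0 ∧ (q = (p.st x y 2, vm x y) ∨ q = (vm x y, p.st x (y + 1) 0))) ∨
    (∃ i < p.rows, ∃ c < 4, ∃ k < p.e + 3, p.cn i c k = true ∧ q = (pre p i c k, coin i c k)) := by
  unfold Par.FL
  rw [List.mem_append, List.mem_flatMap, List.mem_flatMap]
  constructor
  · rintro (⟨x, -, h⟩ | ⟨i, hi, h⟩)
    · rw [List.mem_flatMap] at h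
      obtain ⟨y, -, h⟩ := h
      rw [mem_fcell] at h
      rcases h with h | h
      · exact Or.inl ⟨x, y, h⟩
      · exact Or.inr (Or.inl ⟨x, y, h⟩)
    · rw [List.mem_flatMap] at h
      obtain ⟨c, hc, h⟩ := h
      rw [mem_farm] at h
      exact Or.inr (Or.inr ⟨i, List.mem_range.1 hi, c, List.mem_range.1 hc, h⟩)
  · rintro (⟨x, y, h⟩ | ⟨x, y, h⟩ | ⟨i, hi, c, hc, h⟩)
    · have hb := nf.boxh x y h.1
      refine Or.inl ⟨x, List.mem_range.2 (by omega), ?_⟩
      rw [List.mem_flatMap]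
      exact ⟨y, List.mem_range.2 (by omega), mem_fcell.2 (Or.inl h)⟩
    · have hb := nf.boxv x y h.1
      refine Or.inl ⟨x, List.mem_range.2 (by omega), ?_⟩
      rw [List.mem_flatMap]
      exact ⟨y, List.mem_range.2 (by omega), mem_fcell.2 (Or.inr h)⟩
    · refine Or.inr ⟨i, List.mem_range.2 hi, ?_⟩
      rw [List.mem_flatMap]
      exact ⟨c, List.mem_range.2 hc, mem_farm.2 h⟩

/-- the cell of a pair -/
def key (q : Vx × Vx) : ℕ × ℕ :=
  if q.1.1 = 1 ∨ q.1.1 = 2 then (q.1.2.1, q.1.2.2.1) else (q.2.2.1, q.2.2.2.1)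

theorem key_fcell {x y : ℕ} {q : Vx × Vx} (h : q ∈ p.fcell x y) :
    key q = (x, y) ∧ (q.1.1 = 1 ∨ q.1.1 = 2 ∨ q.2.1 = 1 ∨ q.2.1 = 2) := by
  rw [mem_fcell] at h
  rcases h with ⟨-, rfl | rfl⟩ | ⟨-, rfl | rfl⟩
  · refine ⟨?_, Or.inr (Or.inr (Or.inl rfl))⟩
    unfold key
    rw [if_neg]
    rcases st_tag (p := p) x y 3 with h | h <;> (simp only [h]; decide)
  · exact ⟨rfl, Or.inl rfl⟩
  · refine ⟨?_, Or.inr (Or.inr (Or.inr rfl))⟩
    unfold key
    rw [if_neg]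
    rcases st_tag (p := p) x y 2 with h | h <;> (simp only [h]; decide)
  · exact ⟨rfl, Or.inr (Or.inl rfl)⟩

theorem pre_tag (i c k : ℕ) : (pre p i c k).1 = 3 ∨ (pre p i c k).1 = 4 := by
  unfold pre
  split_ifs
  · exact Or.inl rfl
  · exact Or.inr rfl

theorem nodup_fcell (x y : ℕ) : (p.fcell x y).Nodup := by
  have hne : ∀ c x' y', p.st x' y' c ≠ hm x y := by
    intro c x' y' h
    have h1 := st_tag (p := p) x' y' c
    rw [h] at h1
    have h2 : (1 : ℕ) = 0 ∨ (1 : ℕ) = 4 := h1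
    omega
  have hne2 : ∀ c x' y', p.st x' y' c ≠ vm x y := by
    intro c x' y' h
    have h1 := st_tag (p := p) x' y' c
    rw [h] at h1
    have h2 : (2 : ℕ) = 0 ∨ (2 : ℕ) = 4 := h1
    omega
  unfold Par.fcell
  rw [List.nodup_append]
  refine ⟨?_, ?_, ?_⟩
  · split_ifs
    · rw [List.nodup_cons]
      refine ⟨?_, List.nodup_singleton _⟩
      rw [List.mem_singleton]
      intro h
      exact hne _ _ _ (congrArg Prod.fst h)
    · exact List.nodup_nil
  · split_ifs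
    · rw [List.nodup_cons]
      refine ⟨?_, List.nodup_singleton _⟩
      rw [List.mem_singleton]
      intro h
      exact hne2 _ _ _ (congrArg Prod.fst h)
    · exact List.nodup_nil
  · intro a ha b hb hab
    subst hab
    have e1 : a.1.1 = 1 ∨ a.2.1 = 1 := by
      split_ifs at ha
      · rw [List.mem_cons, List.mem_singleton] at ha
        rcases ha with rfl | rfl
        · exact Or.inr rfl
        · exact Or.inl rfl
      · exact absurd ha (List.not_mem_nil)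
    split_ifs at hb
    · rw [List.mem_cons, List.mem_singleton] at hb
      rcases hb with rfl | rfl
      · rcases e1 with h | h
        · rcases st_tag (p := p) x y 2 with h1 | h1
          · exact absurd (h.symm.trans h1) (by decide)
          · exact absurd (h.symm.trans h1) (by decide)
        · have h2 : (2 : ℕ) = 1 := h
          exact absurd h2 (by decide)
      · rcases e1 with h | h
        · have h2 : (2 : ℕ) = 1 := h
          exact absurd h2 (by decide)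
        · rcases st_tag (p := p) x (y + 1) 0 with h1 | h1
          · exact absurd (h.symm.trans h1) (by decide)
          · exact absurd (h.symm.trans h1) (by decide)
    · exact absurd hb (List.not_mem_nil)

theorem nodup_FL : p.FL.Nodup := by
  unfold Par.FL
  rw [List.nodup_append]
  refine ⟨?_, ?_, ?_⟩
  · rw [List.nodup_flatMap]
    refine ⟨?_, ?_⟩
    · intro x _
      rw [List.nodup_flatMap]
      refine ⟨fun y _ => nodup_fcell x y, ?_⟩
      refine List.Pairwise.imp ?_ List.nodup_range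
      intro y y' hyy q h1 h2
      have e1 := (key_fcell h1).1
      have e2 := (key_fcell h2).1
      rw [e1] at e2
      exact hyy (congrArg Prod.snd e2)
    · refine List.Pairwise.imp ?_ List.nodup_range
      intro x x' hxx q h1 h2
      rw [List.mem_flatMap] at h1 h2
      obtain ⟨y, -, h1⟩ := h1
      obtain ⟨y', -, h2⟩ := h2
      have e1 := (key_fcell h1).1
      have e2 := (key_fcell h2).1
      rw [e1] at e2
      exact hxx (congrArg Prod.fst e2)
  · rw [List.nodup_flatMap]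
    refine ⟨?_, ?_⟩
    · intro i _
      rw [List.nodup_flatMap]
      refine ⟨?_, ?_⟩
      · intro c _
        unfold Par.farm
        refine List.Nodup.map ?_ (List.nodup_range.filter _)
        intro k k' hkk
        have := congrArg (fun q : Vx × Vx => q.2.2.2.2) hkk
        exact this
      · refine List.Pairwise.imp ?_ List.nodup_range
        intro c c' hcc q h1 h2
        rw [mem_farm] at h1 h2
        obtain ⟨k, -, -, rfl⟩ := h1
        obtain ⟨k', -, -, h2⟩ := h2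
        exact hcc (congrArg (fun q : Vx × Vx => q.2.2.2.1) h2)
    · refine List.Pairwise.imp ?_ List.nodup_range
      intro i i' hii q h1 h2
      rw [List.mem_flatMap] at h1 h2
      obtain ⟨c, -, h1⟩ := h1
      obtain ⟨c', -, h2⟩ := h2
      rw [mem_farm] at h1 h2
      obtain ⟨k, -, -, rfl⟩ := h1
      obtain ⟨k', -, -, h2⟩ := h2
      exact hii (congrArg (fun q : Vx × Vx => q.2.2.1) h2)
  · intro a ha b hb hab
    subst hab
    rw [List.mem_flatMap] at ha hb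
    obtain ⟨x, -, ha⟩ := ha
    obtain ⟨i, -, hb⟩ := hb
    rw [List.mem_flatMap] at ha hb
    obtain ⟨y, -, ha⟩ := ha
    obtain ⟨c, -, hb⟩ := hb
    rw [mem_farm] at hb
    obtain ⟨k, -, -, rfl⟩ := hb
    have e1 := (key_fcell ha).2
    have e2 := pre_tag (p := p) i c k
    simp only at e1
    rcases e1 with h | h | h | h
    · rcases e2 with h' | h' <;> exact absurd (h.symm.trans h') (by decide)
    · rcases e2 with h' | h' <;> exact absurd (h.symm.trans h') (by decide)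
    · exact absurd h (by decide)
    · exact absurd h (by decide)

/-! ### the theorem -/

theorem tagne {a b : Vx} (h : a = b) (k l : ℕ) (ha : a.1 = k) (hb : b.1 = l) (hkl : k ≠ l) :
    False := hkl (by rw [← ha, ← hb, h])

theorem hubs (nf : p.NF) {x y : ℕ} (h : p.hub x y = true) :
    x = p.K0 ∧ (y - 4) / 6 < p.rows ∧ y = 7 + 6 * ((y - 4) / 6) := by
  obtain ⟨h1, i, hi, h2⟩ := (nf.hubI x y).1 h
  have h3 : (y - 4) / 6 = i := by omega
  rw [h3]
  exact ⟨h1, hi, h2⟩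

theorem not_hub_succ (nf : p.NF) {x y y' : ℕ} (h : p.hub x y = true) :
    p.hub (x + 1) y' = false := by
  cases h1 : p.hub (x + 1) y' with
  | false => rfl
  | true =>
    have e1 := (hubs nf h).1
    have e2 := (hubs nf h1).1
    omega

theorem not_hub_down (nf : p.NF) {x y : ℕ} (h : p.hub x y = true) :
    p.hub x (y + 1) = false := by
  cases h1 : p.hub x (y + 1) with
  | false => rfl
  | true =>
    obtain ⟨-, -, e1⟩ := hubs nf h
    obtain ⟨-, -, e2⟩ := hubs nf h1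
    omega

theorem st_hne (nf : p.NF) (x y : ℕ) : p.st x y 3 ≠ p.st (x + 1) y 1 := by
  intro h
  cases h1 : p.hub x y with
  | true =>
    rw [st_hub 3 h1, st_lat 1 (not_hub_succ nf h1)] at h
    exact tagne h 4 0 rfl rfl (by decide)
  | false =>
    rw [st_lat 3 h1] at h
    obtain ⟨-, h2, -⟩ := st_eq_lat h.symm
    omega

theorem st_vne (nf : p.NF) (x y : ℕ) : p.st x y 2 ≠ p.st x (y + 1) 0 := by
  intro h
  cases h1 : p.hub x y with
  | true =>
    rw [st_hub 2 h1, st_lat 0 (not_hub_down nf h1)] at h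
    exact tagne h 4 0 rfl rfl (by decide)
  | false =>
    rw [st_lat 2 h1] at h
    obtain ⟨-, -, h2⟩ := st_eq_lat h.symm
    omega

theorem st_mem (nf : p.NF) (vm' : p.VM) (fk : p.FK) {x y c : ℕ} (hc : c < 4)
    (h : p.fd x y ≠ 0) : p.st x y c ∈ p.V := by
  cases h1 : p.hub x y with
  | true =>
    rw [st_hub c h1]
    obtain ⟨-, e1, -⟩ := hubs nf h1
    rw [vm'.coin]
    have := fk.lt _ e1 c hc
    exact ⟨e1, hc, by omega, (fk.cn _ e1 c hc _).2 (by omega)⟩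
  | false =>
    rw [st_lat c h1, vm'.lat]
    exact ⟨h, h1⟩

theorem fd_h {x y : ℕ} (h : p.h x y = 0) : p.fd x y ≠ 0 := by
  unfold Par.fd
  rw [if_pos h]
  omega

theorem fd_h' {x y : ℕ} (h : p.h x y = 0) : p.fd (x + 1) y ≠ 0 := by
  unfold Par.fd
  rw [if_pos (show 0 < x + 1 ∧ p.h (x + 1 - 1) y = 0 from ⟨Nat.succ_pos _, h⟩)]
  omega

theorem fd_v {x y : ℕ} (h : p.v x y = 0) : p.fd x y ≠ 0 := by
  unfold Par.fd
  rw [if_pos h]
  omega

theorem fd_v' {x y : ℕ} (h : p.v x y = 0) : p.fd x (y + 1) ≠ 0 := by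
  unfold Par.fd
  rw [if_pos (show 0 < y + 1 ∧ p.v x (y + 1 - 1) = 0 from ⟨Nat.succ_pos _, h⟩)]
  omega

/-- the predecessor on an arm -/
theorem pre_eq (fk : p.FK) {i c k : ℕ} (hi : i < p.rows) (hc : c < 4)
    (hk : p.cn i c k = true) :
    (k = p.fk i c ∧ pre p i c k = ring i c) ∨
      (p.fk i c < k ∧ pre p i c k = coin i c (k - 1)) := by
  have h1 := (fk.cn i hi c hc k).1 hk
  have h2 := fk.fst i hi c hc k
  unfold pre
  by_cases h3 : p.fst' i c k = true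
  · left
    rw [if_pos h3]
    exact ⟨le_antisymm (h2.1 h3) h1, rfl⟩
  · right
    rw [if_neg h3]
    refine ⟨?_, rfl⟩
    by_contra h4
    exact h3 (h2.2 (by omega))

theorem coin_inj {i c k i' c' k' : ℕ} (h : coin i c k = coin i' c' k') :
    i = i' ∧ c = c' ∧ k = k' := by
  simp only [coin, Prod.mk.injEq] at h
  exact ⟨h.2.1, h.2.2.1, h.2.2.2⟩

theorem ring_inj {i c i' c' : ℕ} (h : ring i c = ring i' c') : i = i' ∧ c = c' := by
  simp only [ring, Prod.mk.injEq] at h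
  exact ⟨h.2.1, h.2.2.1⟩

theorem hm_inj {x y x' y' : ℕ} (h : hm x y = hm x' y') : x = x' ∧ y = y' := by
  simp only [hm, Prod.mk.injEq] at h
  exact ⟨h.2.1, h.2.2.1⟩

theorem vm_inj {x y x' y' : ℕ} (h : vm x y = vm x' y') : x = x' ∧ y = y' := by
  simp only [vm, Prod.mk.injEq] at h
  exact ⟨h.2.1, h.2.2.1⟩

theorem st_ne_hm (x y c x' y' : ℕ) : p.st x y c ≠ hm x' y' := by
  intro h
  rcases st_tag (p := p) x y c with h1 | h1
  · exact tagne h 0 1 h1 rfl (by decide)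
  · exact tagne h 4 1 h1 rfl (by decide)

theorem st_ne_vm (x y c x' y' : ℕ) : p.st x y c ≠ vm x' y' := by
  intro h
  rcases st_tag (p := p) x y c with h1 | h1
  · exact tagne h 0 2 h1 rfl (by decide)
  · exact tagne h 4 2 h1 rfl (by decide)

theorem st_ne_ring (x y c i c' : ℕ) : p.st x y c ≠ ring i c' := by
  intro h
  rcases st_tag (p := p) x y c with h1 | h1
  · exact tagne h 0 3 h1 rfl (by decide)
  · exact tagne h 4 3 h1 rfl (by decide)

theorem pre_ne (i c k : ℕ) (a : Vx) (ha : a.1 = 0 ∨ a.1 = 1 ∨ a.1 = 2) : pre p i c k ≠ a := by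
  intro h
  rcases pre_tag (p := p) i c k with h1 | h1
  · rcases ha with h2 | h2 | h2
    · exact tagne h 3 0 h1 h2 (by decide)
    · exact tagne h 3 1 h1 h2 (by decide)
    · exact tagne h 3 2 h1 h2 (by decide)
  · rcases ha with h2 | h2 | h2
    · exact tagne h 4 0 h1 h2 (by decide)
    · exact tagne h 4 1 h1 h2 (by decide)
    · exact tagne h 4 2 h1 h2 (by decide)

/-- all forced pairs, one form each -/
theorem F_cases (nf : p.NF) {a b : Vx} (h : (a, b) ∈ p.FL) :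
    (∃ x y, p.h x y = 0 ∧ a = p.st x y 3 ∧ b = hm x y) ∨
    (∃ x y, p.h x y = 0 ∧ a = hm x y ∧ b = p.st (x + 1) y 1) ∨
    (∃ x y, p.v x y = 0 ∧ a = p.st x y 2 ∧ b = vm x y) ∨
    (∃ x y, p.v x y = 0 ∧ a = vm x y ∧ b = p.st x (y + 1) 0) ∨
    (∃ i < p.rows, ∃ c < 4, ∃ k < p.e + 3, p.cn i c k = true ∧ a = pre p i c k ∧
      b = coin i c k) := by
  rw [mem_FL nf] at h
  rcases h with ⟨x, y, h1, h2 | h2⟩ | ⟨x, y, h1, h2 | h2⟩ | ⟨i, hi, c, hc, k, hk, h1, h2⟩ <;>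
    rw [Prod.mk.injEq] at h2
  · exact Or.inl ⟨x, y, h1, h2.1, h2.2⟩
  · exact Or.inr (Or.inl ⟨x, y, h1, h2.1, h2.2⟩)
  · exact Or.inr (Or.inr (Or.inl ⟨x, y, h1, h2.1, h2.2⟩))
  · exact Or.inr (Or.inr (Or.inr (Or.inl ⟨x, y, h1, h2.1, h2.2⟩)))
  · exact Or.inr (Or.inr (Or.inr (Or.inr ⟨i, hi, c, hc, k, hk, h1, h2.1, h2.2⟩)))

theorem F1 (nf : p.NF) {x y : ℕ} (h : p.h x y = 0) : (p.st x y 3, hm x y) ∈ p.FL :=
  (mem_FL nf).2 (Or.inl ⟨x, y, h, Or.inl rfl⟩)
theorem F2 (nf : p.NF) {x y : ℕ} (h : p.h x y = 0) : (hm x y, p.st (x + 1) y 1) ∈ p.FL :=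
  (mem_FL nf).2 (Or.inl ⟨x, y, h, Or.inr rfl⟩)
theorem F3 (nf : p.NF) {x y : ℕ} (h : p.v x y = 0) : (p.st x y 2, vm x y) ∈ p.FL :=
  (mem_FL nf).2 (Or.inr (Or.inl ⟨x, y, h, Or.inl rfl⟩))
theorem F4 (nf : p.NF) {x y : ℕ} (h : p.v x y = 0) : (vm x y, p.st x (y + 1) 0) ∈ p.FL :=
  (mem_FL nf).2 (Or.inr (Or.inl ⟨x, y, h, Or.inr rfl⟩))
theorem F5 (nf : p.NF) {i c k : ℕ} (hi : i < p.rows) (hc : c < 4) (hk : k < p.e + 3)
    (h : p.cn i c k = true) : (pre p i c k, coin i c k) ∈ p.FL :=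
  (mem_FL nf).2 (Or.inr (Or.inr ⟨i, hi, c, hc, k, hk, h, rfl⟩))

theorem anti (nf : p.NF) (fk : p.FK) (a b : Vx) (h : (a, b) ∈ p.FL) : (b, a) ∉ p.FL := by
  intro h'
  rcases F_cases nf h with ⟨x, y, -, rfl, rfl⟩ | ⟨x, y, -, rfl, rfl⟩ | ⟨x, y, -, rfl, rfl⟩ |
    ⟨x, y, -, rfl, rfl⟩ | ⟨i, hi, c, hc, k, hk, h1, rfl, rfl⟩
  · rcases F_cases nf h' with ⟨x', y', -, e1, e2⟩ | ⟨x', y', -, e1, e2⟩ | ⟨x', y', -, e1, e2⟩ |
      ⟨x', y', -, e1, e2⟩ | ⟨i, hi, c, hc, k, hk, h1, e1, e2⟩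
    · exact st_ne_hm _ _ _ _ _ e1.symm
    · obtain ⟨rfl, rfl⟩ := hm_inj e1
      exact st_hne nf _ _ e2
    · exact st_ne_hm _ _ _ _ _ e1.symm
    · exact tagne e1 1 2 rfl rfl (by decide)
    · exact pre_ne _ _ _ _ (Or.inr (Or.inl rfl)) e1.symm
  · rcases F_cases nf h' with ⟨x', y', -, e1, e2⟩ | ⟨x', y', -, e1, e2⟩ | ⟨x', y', -, e1, e2⟩ |
      ⟨x', y', -, e1, e2⟩ | ⟨i, hi, c, hc, k, hk, h1, e1, e2⟩
    · obtain ⟨rfl, rfl⟩ := hm_inj e2
      exact st_hne nf _ _ e1.symm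
    · exact st_ne_hm _ _ _ _ _ e1
    · exact tagne e2 1 2 rfl rfl (by decide)
    · exact st_ne_hm _ _ _ _ _ e2.symm
    · exact tagne e2 1 4 rfl rfl (by decide)
  · rcases F_cases nf h' with ⟨x', y', -, e1, e2⟩ | ⟨x', y', -, e1, e2⟩ | ⟨x', y', -, e1, e2⟩ |
      ⟨x', y', -, e1, e2⟩ | ⟨i, hi, c, hc, k, hk, h1, e1, e2⟩
    · exact st_ne_vm _ _ _ _ _ e1.symm
    · exact tagne e1 2 1 rfl rfl (by decide)
    · exact st_ne_vm _ _ _ _ _ e1.symm
    · obtain ⟨rfl, rfl⟩ := vm_inj e1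
      exact st_vne nf _ _ e2
    · exact pre_ne _ _ _ _ (Or.inr (Or.inr rfl)) e1.symm
  · rcases F_cases nf h' with ⟨x', y', -, e1, e2⟩ | ⟨x', y', -, e1, e2⟩ | ⟨x', y', -, e1, e2⟩ |
      ⟨x', y', -, e1, e2⟩ | ⟨i, hi, c, hc, k, hk, h1, e1, e2⟩
    · exact tagne e2 2 1 rfl rfl (by decide)
    · exact st_ne_vm _ _ _ _ _ e2.symm
    · obtain ⟨rfl, rfl⟩ := vm_inj e2
      exact st_vne nf _ _ e1.symm
    · exact st_ne_vm _ _ _ _ _ e1
    · exact tagne e2 2 4 rfl rfl (by decide)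
  · rcases F_cases nf h' with ⟨x', y', -, e1, e2⟩ | ⟨x', y', -, e1, e2⟩ | ⟨x', y', -, e1, e2⟩ |
      ⟨x', y', -, e1, e2⟩ | ⟨i', hi', c', hc', k', hk', h1', e1, e2⟩
    · exact pre_ne _ _ _ _ (Or.inr (Or.inl rfl)) e2
    · exact tagne e1 4 1 rfl rfl (by decide)
    · exact pre_ne _ _ _ _ (Or.inr (Or.inr rfl)) e2
    · exact tagne e1 4 2 rfl rfl (by decide)
    · rcases pre_eq fk hi hc h1 with ⟨-, e3⟩ | ⟨e4, e3⟩
      · rw [e3] at e2
        exact tagne e2 3 4 rfl rfl (by decide)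
      · rw [e3] at e2
        obtain ⟨rfl, rfl, rfl⟩ := coin_inj e2
        rcases pre_eq fk hi' hc' h1' with ⟨-, e5⟩ | ⟨e6, e5⟩
        · rw [e5] at e1
          exact tagne e1 4 3 rfl rfl (by decide)
        · rw [e5] at e1
          obtain ⟨-, -, e7⟩ := coin_inj e1
          omega

theorem memV (nf : p.NF) (vm' : p.VM) (fk : p.FK) (a b : Vx) (h : (a, b) ∈ p.FL) :
    a ∈ p.V ∧ b ∈ p.V ∧ a ≠ b := by
  rcases F_cases nf h with ⟨x, y, h1, rfl, rfl⟩ | ⟨x, y, h1, rfl, rfl⟩ | ⟨x, y, h1, rfl, rfl⟩ |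
    ⟨x, y, h1, rfl, rfl⟩ | ⟨i, hi, c, hc, k, hk, h1, rfl, rfl⟩
  · exact ⟨st_mem nf vm' fk (by omega) (fd_h h1), (vm'.hm x y).2 h1, st_ne_hm _ _ _ _ _⟩
  · exact ⟨(vm'.hm x y).2 h1, st_mem nf vm' fk (by omega) (fd_h' h1), (st_ne_hm _ _ _ _ _).symm⟩
  · exact ⟨st_mem nf vm' fk (by omega) (fd_v h1), (vm'.vm x y).2 h1, st_ne_vm _ _ _ _ _⟩
  · exact ⟨(vm'.vm x y).2 h1, st_mem nf vm' fk (by omega) (fd_v' h1), (st_ne_vm _ _ _ _ _).symm⟩
  · refine ⟨?_, (vm'.coin i c k).2 ⟨hi, hc, hk, h1⟩, ?_⟩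
    · rcases pre_eq fk hi hc h1 with ⟨-, e3⟩ | ⟨e4, e3⟩
      · rw [e3]; exact (vm'.ring i c).2 ⟨hi, hc⟩
      · rw [e3]
        exact (vm'.coin i c (k - 1)).2 ⟨hi, hc, by omega, (fk.cn i hi c hc _).2 (by omega)⟩
    · intro e1
      rcases pre_eq fk hi hc h1 with ⟨-, e3⟩ | ⟨e4, e3⟩
      · rw [e3] at e1
        exact tagne e1 3 4 rfl rfl (by decide)
      · rw [e3] at e1
        obtain ⟨-, -, e7⟩ := coin_inj e1
        omega

theorem F_lat (nf : p.NF) (x y : ℕ) (b : Vx) (hh : p.hub x y = false) :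
    p.F (lat x y) b ↔
    (p.h x y = 0 ∧ b = hm x y) ∨ (0 < x ∧ p.h (x - 1) y = 0 ∧ b = hm (x - 1) y) ∨
    (p.v x y = 0 ∧ b = vm x y) ∨ (0 < y ∧ p.v x (y - 1) = 0 ∧ b = vm x (y - 1)) := by
  constructor
  · rintro (h | h)
    · rcases F_cases nf h with ⟨x', y', h1, e1, e2⟩ | ⟨x', y', h1, e1, e2⟩ |
        ⟨x', y', h1, e1, e2⟩ | ⟨x', y', h1, e1, e2⟩ | ⟨i, hi, c, hc, k, hk, h1, e1, e2⟩
      · obtain ⟨-, rfl, rfl⟩ := st_eq_lat e1.symm
        exact Or.inl ⟨h1, e2⟩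
      · exact (tagne e1 0 1 rfl rfl (by decide)).elim
      · obtain ⟨-, rfl, rfl⟩ := st_eq_lat e1.symm
        exact Or.inr (Or.inr (Or.inl ⟨h1, e2⟩))
      · exact (tagne e1 0 2 rfl rfl (by decide)).elim
      · exact (pre_ne _ _ _ _ (Or.inl rfl) e1.symm).elim
    · rcases F_cases nf h with ⟨x', y', h1, e1, e2⟩ | ⟨x', y', h1, e1, e2⟩ |
        ⟨x', y', h1, e1, e2⟩ | ⟨x', y', h1, e1, e2⟩ | ⟨i, hi, c, hc, k, hk, h1, e1, e2⟩
      · exact (tagne e2 0 1 rfl rfl (by decide)).elim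
      · obtain ⟨-, rfl, rfl⟩ := st_eq_lat e2.symm
        exact Or.inr (Or.inl ⟨Nat.succ_pos _, h1, e1⟩)
      · exact (tagne e2 0 2 rfl rfl (by decide)).elim
      · obtain ⟨-, rfl, rfl⟩ := st_eq_lat e2.symm
        exact Or.inr (Or.inr (Or.inr ⟨Nat.succ_pos _, h1, e1⟩))
      · exact (tagne e2 0 4 rfl rfl (by decide)).elim
  · rintro (⟨h, rfl⟩ | ⟨h0, h, rfl⟩ | ⟨h, rfl⟩ | ⟨h0, h, rfl⟩)
    · left
      have := F1 nf h
      rwa [st_lat 3 hh] at this
    · right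
      have := F2 nf h
      rwa [Nat.sub_add_cancel h0, st_lat 1 hh] at this
    · left
      have := F3 nf h
      rwa [st_lat 2 hh] at this
    · right
      have := F4 nf h
      rwa [Nat.sub_add_cancel h0, st_lat 0 hh] at this

theorem F_hm (nf : p.NF) (x y : ℕ) (b : Vx) :
    p.F (hm x y) b ↔ p.h x y = 0 ∧ (b = p.st x y 3 ∨ b = p.st (x + 1) y 1) := by
  constructor
  · rintro (h | h)
    · rcases F_cases nf h with ⟨x', y', h1, e1, e2⟩ | ⟨x', y', h1, e1, e2⟩ |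
        ⟨x', y', h1, e1, e2⟩ | ⟨x', y', h1, e1, e2⟩ | ⟨i, hi, c, hc, k, hk, h1, e1, e2⟩
      · exact (st_ne_hm _ _ _ _ _ e1.symm).elim
      · obtain ⟨rfl, rfl⟩ := hm_inj e1
        exact ⟨h1, Or.inr e2⟩
      · exact (st_ne_hm _ _ _ _ _ e1.symm).elim
      · exact (tagne e1 1 2 rfl rfl (by decide)).elim
      · exact (pre_ne _ _ _ _ (Or.inr (Or.inl rfl)) e1.symm).elim
    · rcases F_cases nf h with ⟨x', y', h1, e1, e2⟩ | ⟨x', y', h1, e1, e2⟩ |
        ⟨x', y', h1, e1, e2⟩ | ⟨x', y', h1, e1, e2⟩ | ⟨i, hi, c, hc, k, hk, h1, e1, e2⟩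
      · obtain ⟨rfl, rfl⟩ := hm_inj e2
        exact ⟨h1, Or.inl e1⟩
      · exact (st_ne_hm _ _ _ _ _ e2.symm).elim
      · exact (tagne e2 1 2 rfl rfl (by decide)).elim
      · exact (st_ne_hm _ _ _ _ _ e2.symm).elim
      · exact (tagne e2 1 4 rfl rfl (by decide)).elim
  · rintro ⟨h, rfl | rfl⟩
    · exact Or.inr (F1 nf h)
    · exact Or.inl (F2 nf h)

theorem F_vm (nf : p.NF) (x y : ℕ) (b : Vx) :
    p.F (vm x y) b ↔ p.v x y = 0 ∧ (b = p.st x y 2 ∨ b = p.st x (y + 1) 0) := by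
  constructor
  · rintro (h | h)
    · rcases F_cases nf h with ⟨x', y', h1, e1, e2⟩ | ⟨x', y', h1, e1, e2⟩ |
        ⟨x', y', h1, e1, e2⟩ | ⟨x', y', h1, e1, e2⟩ | ⟨i, hi, c, hc, k, hk, h1, e1, e2⟩
      · exact (st_ne_vm _ _ _ _ _ e1.symm).elim
      · exact (tagne e1 2 1 rfl rfl (by decide)).elim
      · exact (st_ne_vm _ _ _ _ _ e1.symm).elim
      · obtain ⟨rfl, rfl⟩ := vm_inj e1
        exact ⟨h1, Or.inr e2⟩
      · exact (pre_ne _ _ _ _ (Or.inr (Or.inr rfl)) e1.symm).elim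
    · rcases F_cases nf h with ⟨x', y', h1, e1, e2⟩ | ⟨x', y', h1, e1, e2⟩ |
        ⟨x', y', h1, e1, e2⟩ | ⟨x', y', h1, e1, e2⟩ | ⟨i, hi, c, hc, k, hk, h1, e1, e2⟩
      · exact (tagne e2 2 1 rfl rfl (by decide)).elim
      · exact (st_ne_vm _ _ _ _ _ e2.symm).elim
      · obtain ⟨rfl, rfl⟩ := vm_inj e2
        exact ⟨h1, Or.inl e1⟩
      · exact (st_ne_vm _ _ _ _ _ e2.symm).elim
      · exact (tagne e2 2 4 rfl rfl (by decide)).elim
  · rintro ⟨h, rfl | rfl⟩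
    · exact Or.inr (F3 nf h)
    · exact Or.inl (F4 nf h)

theorem F_ring (nf : p.NF) (fk : p.FK) (i : ℕ) (hi : i < p.rows) (c : ℕ) (hc : c < 4) (b : Vx) :
    p.F (ring i c) b ↔ b = coin i c (p.fk i c) := by
  constructor
  · rintro (h | h)
    · rcases F_cases nf h with ⟨x', y', h1, e1, e2⟩ | ⟨x', y', h1, e1, e2⟩ |
        ⟨x', y', h1, e1, e2⟩ | ⟨x', y', h1, e1, e2⟩ | ⟨i', hi', c', hc', k, hk, h1, e1, e2⟩
      · exact (st_ne_ring _ _ _ _ _ e1.symm).elim
      · exact (tagne e1 3 1 rfl rfl (by decide)).elim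
      · exact (st_ne_ring _ _ _ _ _ e1.symm).elim
      · exact (tagne e1 3 2 rfl rfl (by decide)).elim
      · rcases pre_eq fk hi' hc' h1 with ⟨e4, e3⟩ | ⟨e4, e3⟩
        · rw [e3] at e1
          obtain ⟨rfl, rfl⟩ := ring_inj e1
          rw [e2, e4]
        · rw [e3] at e1
          exact (tagne e1 3 4 rfl rfl (by decide)).elim
    · rcases F_cases nf h with ⟨x', y', h1, e1, e2⟩ | ⟨x', y', h1, e1, e2⟩ |
        ⟨x', y', h1, e1, e2⟩ | ⟨x', y', h1, e1, e2⟩ | ⟨i', hi', c', hc', k, hk, h1, e1, e2⟩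
      · exact (tagne e2 3 1 rfl rfl (by decide)).elim
      · exact (st_ne_ring _ _ _ _ _ e2.symm).elim
      · exact (tagne e2 3 2 rfl rfl (by decide)).elim
      · exact (st_ne_ring _ _ _ _ _ e2.symm).elim
      · exact (tagne e2 3 4 rfl rfl (by decide)).elim
  · rintro rfl
    left
    have h1 := fk.lt i hi c hc
    have h2 : p.cn i c (p.fk i c) = true := (fk.cn i hi c hc _).2 le_rfl
    have h3 := F5 nf hi hc (show p.fk i c < p.e + 3 by omega) h2
    rcases pre_eq fk hi hc h2 with ⟨-, e3⟩ | ⟨e4, -⟩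
    · rwa [e3] at h3
    · omega

theorem mid0 (i : ℕ) : p.mid i 0 = vm p.K0 (6 + 6 * i) := by
  unfold Par.mid; rw [if_pos rfl]
theorem mid1 (i : ℕ) : p.mid i 1 = hm (p.K0 - 1) (7 + 6 * i) := by
  unfold Par.mid; rw [if_neg (by decide), if_pos rfl]
theorem mid2 (i : ℕ) : p.mid i 2 = vm p.K0 (7 + 6 * i) := by
  unfold Par.mid; rw [if_neg (by decide), if_neg (by decide), if_pos rfl]
theorem mid3 (i : ℕ) : p.mid i 3 = hm p.K0 (7 + 6 * i) := by
  unfold Par.mid; rw [if_neg (by decide), if_neg (by decide), if_neg (by decide)]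

theorem F_coin (nf : p.NF) (fk : p.FK) (i : ℕ) (hi : i < p.rows) (c : ℕ) (hc : c < 4) (k : ℕ)
    (hk1 : p.fk i c ≤ k) (hk2 : k < p.e + 3) (b : Vx) :
    p.F (coin i c k) b ↔
      b = (if k = p.fk i c then ring i c else coin i c (k - 1)) ∨
      b = (if k = p.e + 2 then p.mid i c else coin i c (k + 1)) := by
  have hcn : p.cn i c k = true := (fk.cn i hi c hc k).2 hk1
  have hpre : pre p i c k = (if k = p.fk i c then ring i c else coin i c (k - 1)) := by
    rcases pre_eq fk hi hc hcn with ⟨e4, e3⟩ | ⟨e4, e3⟩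
    · rw [e3, if_pos e4]
    · rw [e3, if_neg (by omega)]
  constructor
  · rintro (h | h)
    · right
      rcases F_cases nf h with ⟨x', y', h1, e1, e2⟩ | ⟨x', y', h1, e1, e2⟩ |
        ⟨x', y', h1, e1, e2⟩ | ⟨x', y', h1, e1, e2⟩ | ⟨i', hi', c', hc', k', hk', h1, e1, e2⟩
      · obtain ⟨f1, f2, f3, f4⟩ := st_eq_coin e1.symm
        obtain ⟨f5, -, f6⟩ := hubs nf f1
        rw [if_pos f4, ← f3, mid3, e2, f5, f6, f2]
      · exact (tagne e1 4 1 rfl rfl (by decide)).elim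
      · obtain ⟨f1, f2, f3, f4⟩ := st_eq_coin e1.symm
        obtain ⟨f5, -, f6⟩ := hubs nf f1
        rw [if_pos f4, ← f3, mid2, e2, f5, f6, f2]
      · exact (tagne e1 4 2 rfl rfl (by decide)).elim
      · rcases pre_eq fk hi' hc' h1 with ⟨e4, e3⟩ | ⟨e4, e3⟩
        · rw [e3] at e1
          exact (tagne e1 4 3 rfl rfl (by decide)).elim
        · rw [e3] at e1
          obtain ⟨rfl, rfl, rfl⟩ := coin_inj e1
          rw [if_neg (by omega), e2, Nat.sub_add_cancel (by omega)]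
    · rcases F_cases nf h with ⟨x', y', h1, e1, e2⟩ | ⟨x', y', h1, e1, e2⟩ |
        ⟨x', y', h1, e1, e2⟩ | ⟨x', y', h1, e1, e2⟩ | ⟨i', hi', c', hc', k', hk', h1, e1, e2⟩
      · exact (tagne e2 4 1 rfl rfl (by decide)).elim
      · right
        obtain ⟨f1, f2, f3, f4⟩ := st_eq_coin e2.symm
        obtain ⟨f5, -, f6⟩ := hubs nf f1
        rw [if_pos f4, ← f3, mid1, e1, ← f5, Nat.add_sub_cancel]
        rw [f2] at f6
        rw [f6]
      · exact (tagne e2 4 2 rfl rfl (by decide)).elim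
      · right
        obtain ⟨f1, f2, f3, f4⟩ := st_eq_coin e2.symm
        obtain ⟨f5, -, f6⟩ := hubs nf f1
        rw [if_pos f4, ← f3, mid0, e1, f5]
        rw [f2] at f6
        rw [show y' = 6 + 6 * i by omega]
      · left
        obtain ⟨rfl, rfl, rfl⟩ := coin_inj e2
        rw [e1, hpre]
  · rintro (rfl | rfl)
    · right
      rw [← hpre]
      exact F5 nf hi hc hk2 hcn
    · by_cases hke : k = p.e + 2
      · rw [if_pos hke]
        have hhub : p.hub p.K0 (7 + 6 * i) = true := (nf.hubI _ _).2 ⟨rfl, i, hi, rfl⟩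
        obtain ⟨g1, g2, g3, g4⟩ := nf.hubE _ _ hhub
        have hst : ∀ c', p.st p.K0 (7 + 6 * i) c' = coin i c' (p.e + 2) := by
          intro c'
          rw [st_hub c' hhub, show (7 + 6 * i - 4) / 6 = i by omega]
        have hK : 0 < p.K0 := by unfold Par.K0; omega
        rw [hke]
        interval_cases c
        · right
          rw [mid0]
          have := F4 nf (x := p.K0) (y := 6 + 6 * i) (by
            rw [show 7 + 6 * i - 1 = 6 + 6 * i by omega] at g4; exact g4)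
          rwa [show 6 + 6 * i + 1 = 7 + 6 * i by omega, hst] at this
        · right
          rw [mid1]
          have := F2 nf g2
          rwa [Nat.sub_add_cancel hK, hst] at this
        · left
          rw [mid2]
          have := F3 nf g3
          rwa [hst] at this
        · left
          rw [mid3]
          have := F1 nf g1
          rwa [hst] at this
      · rw [if_neg hke]
        left
        have h2 : p.cn i c (k + 1) = true := (fk.cn i hi c hc _).2 (by omega)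
        have h3 := F5 nf hi hc (show k + 1 < p.e + 3 by omega) h2
        rcases pre_eq fk hi hc h2 with ⟨e4, -⟩ | ⟨-, e3⟩
        · omega
        · rwa [e3, Nat.add_sub_cancel] at h3

end Pool.Agent.Helper19.ES.FNm

namespace Pool.Agent.Helper19.ES

open Pool.Agent.Helper52.ES

theorem FN : specFN := by
  intro p W _ nf vm' fk
  exact {
    nodup := FNm.nodup_FL
    anti := FNm.anti nf fk
    memV := FNm.memV nf vm' fk
    lat := FNm.F_lat nf
    hm := FNm.F_hm nf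
    vm := FNm.F_vm nf
    ring := FNm.F_ring nf fk
    coin := FNm.F_coin nf fk }

end Pool.Agent.Helper19.ES
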